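import Pool.Agent.W558.WT.Stms
import Pool.Agent.W349.WD.Sum

/-!
# Part INIT of project WT: the beginning of the tower
(helper29, after Pool.Agent.W366.WA.Sum)
-/

set_option autoImplicit false
set_option linter.unusedVariables false
set_option linter.unusedSimpArgs false
set_option linter.unusedSectionVars false

universe u

open Polynomial Pool.Agent.W558 Pool.Agent.W349.WD.Sum

namespace Pool.Agent.W29.WT.Init

theorem main (hovp : WA_ovp.{u}) : WT_init.{u} := by
  intro p _ k L _ _ _ _ T I ι _ _ _ M f n a h hN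
  classical
  obtain ⟨T', I', iT, iI, M', π, Θ, hOv, hΘ, hC⟩ := hovp k L ⊥ ⊤ T I ι M n
  let N : ι → I' → ℤ := fun j i' => ∑ i, Θ i' i * n j i
  have hh : ∀ t' j, h (π t') j ∈ M'.A t' := fun t' j => hOv.le t' (hN.hA (π t') j)
  have hx : ∀ t' j, ∏ i, M.x (π t') i ^ n j i = ∏ i', M'.x t' i' ^ N j i' := by
    intro t' j
    have h1 : ∀ i, M.x (π t') i ^ n j i = ∏ i', M'.x t' i' ^ (Θ i' i * n j i) := by
      intro i
      rw [hOv.x, ← Finset.prod_zpow]
      apply Finset.prod_congr rfl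
      intro i' _
      rw [← zpow_mul]
    rw [Finset.prod_congr rfl fun i _ => h1 i, Finset.prod_comm]
    apply Finset.prod_congr rfl
    intro i' _
    rw [zpow_sum' (M'.x0 t' i')]
  refine ⟨T', I', iT, iI, M', π, Θ, N, fun t' j => a (π t') j, fun t' j => h (π t') j, hOv, ?_⟩
  refine { n0 := ?_, hA := hh, eq := ?_, cmp := ?_, wl := ?_, ech := ?_, rep := ?_, ln := ?_ }
  · intro j i'
    refine Finset.sum_nonpos fun i _ => ?_
    exact mul_nonpos_of_nonneg_of_nonpos (hΘ i' i) (hN.n0 j i)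
  · intro t' j
    rw [← hx]
    exact hN.eq (π t') j
  · intro t' j l
    exact hC j l t'
  · intro μ hμ
    rw [Submodule.mem_bot] at hμ
    refine ⟨0, ?_⟩
    rw [hμ]
    simp [zero_pow (Fact.out : p.Prime).ne_zero]
  · intro t' μ hμ hμ0
    rw [Submodule.mem_bot] at hμ
    exact absurd hμ hμ0
  · intro t' lam
    exact ⟨0, Submodule.zero_mem _, fun j hj => absurd hj (Set.notMem_empty j)⟩
  · rintro t' κ _ _ φ' j0 _ ⟨i0, hNneg, hi0'⟩
    obtain ⟨i1, _, hi1⟩ := Finset.exists_lt_of_sum_lt (s := Finset.univ)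
      (f := fun i => Θ i0 i * n j0 i) (g := fun _ => (0 : ℤ)) (by simpa using hNneg)
    have hn1 : n j0 i1 < 0 := by
      rcases lt_or_eq_of_le (hN.n0 j0 i1) with h1 | h1
      · exact h1
      · rw [h1, mul_zero] at hi1
        exact absurd hi1 (lt_irrefl _)
    have hΘ1 : 0 < Θ i0 i1 := by
      rcases lt_or_eq_of_le (hΘ i0 i1) with h1 | h1
      · exact h1
      · rw [← h1, zero_mul] at hi1
        exact absurd hi1 (lt_irrefl _)
    have hzero : (φ'.comp (Subalgebra.inclusion (hOv.le t'))) ⟨M.x (π t') i1, M.xA (π t') i1⟩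
        = 0 := by
      have h1 : (Subalgebra.inclusion (hOv.le t')) ⟨M.x (π t') i1, M.xA (π t') i1⟩ =
          ∏ i', (⟨M'.x t' i', M'.xA t' i'⟩ : M'.A t') ^ (Θ i' i1).toNat := by
        apply Subtype.ext
        change M.x (π t') i1 =
          (M'.A t').val (∏ i', (⟨M'.x t' i', M'.xA t' i'⟩ : M'.A t') ^ (Θ i' i1).toNat)
        rw [map_prod, hOv.x]
        refine Finset.prod_congr rfl fun i' _ => ?_
        change M'.x t' i' ^ Θ i' i1 = M'.x t' i' ^ (Θ i' i1).toNat
        rw [← zpow_natCast, Int.toNat_of_nonneg (hΘ i' i1)]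
      change φ' ((Subalgebra.inclusion (hOv.le t')) ⟨M.x (π t') i1, M.xA (π t') i1⟩) = 0
      rw [h1, map_prod]
      refine Finset.prod_eq_zero (Finset.mem_univ i0) ?_
      rw [map_pow, hi0', zero_pow (by omega)]
    obtain ⟨v, hv1, hv2⟩ := hN.ln (π t') κ (φ'.comp (Subalgebra.inclusion (hOv.le t'))) j0
      ⟨i1, hn1, hzero⟩
    obtain ⟨v', hw1, hw2⟩ := hOv.lt t' κ φ' v
    have hNe : ∀ j, ∑ i', (N j i' : κ) * v'.e i' = ∑ i, (n j i : κ) * v.e i := by
      intro j
      have h1 : ∀ i', (N j i' : κ) * v'.e i' = ∑ i, (n j i : κ) * ((Θ i' i : κ) * v'.e i') := by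
        intro i'
        change ((∑ i, Θ i' i * n j i : ℤ) : κ) * v'.e i' = _
        push_cast
        rw [Finset.sum_mul]
        apply Finset.sum_congr rfl
        intro i _
        ring
      rw [Finset.sum_congr rfl fun i' _ => h1 i', Finset.sum_comm]
      apply Finset.sum_congr rfl
      intro i _
      rw [← Finset.mul_sum, hw2 i]
    have hom : ∀ j, om v' (N j) (hh t' j) = om v (n j) (hN.hA (π t') j) := by
      intro j
      unfold om
      rw [hNe j]
      have h1 : v'.D.D ⟨h (π t') j, hh t' j⟩ = v.D.D ⟨h (π t') j, hN.hA (π t') j⟩ :=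
        hw1 _ (hN.hA (π t') j)
      have h2 : (φ'.comp (Subalgebra.inclusion (hOv.le t'))) ⟨h (π t') j, hN.hA (π t') j⟩ =
          φ' ⟨h (π t') j, hh t' j⟩ := rfl
      rw [h1, h2]
    refine ⟨v', ?_, ?_⟩
    · rw [hom]
      exact hv1
    · intro l _ hl
      rw [hom]
      exact hv2 l hl

end Pool.Agent.W29.WT.Init
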